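import Pool.Agent.H606.OS.Stm

open MeasureTheory Filter Topology Finset
open Pool.Agent.H606.OS

namespace Pool.Agent.H686.OS.PAR

/-- the tent function -/
noncomputable def tent (u : ℝ) : ℝ := max 0 (1 - |u|)

theorem tent_cont : Continuous tent := by
  unfold tent
  exact continuous_const.max (continuous_const.sub continuous_abs)

theorem tent_even (u : ℝ) : tent (-u) = tent u := by
  unfold tent; rw [abs_neg]

theorem tent_zero (u : ℝ) (h : 1 ≤ |u|) : tent u = 0 := by
  unfold tent; exact max_eq_left (by linarith)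

theorem tent_eq (u : ℝ) (h : u ∈ Set.uIcc (-1 : ℝ) 1) : tent u = 1 - |u| := by
  rw [Set.uIcc_of_le (by norm_num)] at h
  unfold tent
  exact max_eq_right (by have := abs_le.mpr ⟨h.1, h.2⟩; linarith)

theorem fj_eq (x : ℝ) : ∫ u in (-1 : ℝ)..1, tent u * Real.cos (u * x) = fj x := by
  unfold fj
  refine intervalIntegral.integral_congr fun u hu => ?_
  rw [tent_eq u hu]

theorem kk_eq (x : ℝ) : ∫ u in (-1 : ℝ)..1, tent u ^ 2 * Real.cos (u * x) = kk x := by
  unfold kk
  refine intervalIntegral.integral_congr fun u hu => ?_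
  rw [tent_eq u hu]

theorem pair (hFJ : S_FJ) (hPL : S_PL) (x y : ℝ) :
    Integrable (fun t : ℝ => fj (x - t) * fj (y - t)) ∧
      (∫ t : ℝ, fj (x - t) * fj (y - t)) = 2 * Real.pi * kk (x - y) := by
  obtain ⟨C, _, _, _, hb, _⟩ := hFJ
  have h := hPL tent tent_cont tent_even tent_zero C (fun x => by
    rw [fj_eq, abs_of_nonneg (hb x).1]
    exact (hb x).2) x y
  simp only [fj_eq, kk_eq] at h
  exact h

theorem pair_scaled (hFJ : S_FJ) (hPL : S_PL) (a : ℝ) (ha : 0 < a) (x y : ℝ) :
    Integrable (fun t : ℝ => fj (a * (x - t)) * fj (a * (y - t))) ∧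
      (∫ t : ℝ, fj (a * (x - t)) * fj (a * (y - t))) = 2 * Real.pi / a * kk (a * (x - y)) := by
  obtain ⟨h1, h2⟩ := pair hFJ hPL (a * x) (a * y)
  have e : (fun t : ℝ => fj (a * (x - t)) * fj (a * (y - t))) =
      fun t => (fun s : ℝ => fj (a * x - s) * fj (a * y - s)) (a * t) := by
    funext t
    simp only [mul_sub]
  refine ⟨?_, ?_⟩
  · rw [e]
    exact (integrable_comp_mul_left_iff _ ha.ne').mpr h1
  · rw [e, Measure.integral_comp_mul_left (fun s : ℝ => fj (a * x - s) * fj (a * y - s)) a, h2, ← mul_sub, abs_of_pos (inv_pos.mpr ha), smul_eq_mul]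
    field_simp

theorem t_PAR (hFJ : S_FJ) (hPL : S_PL) : S_PAR := by
  intro Z m T b hT hb
  have hL : 0 < Real.log T := Real.log_pos hT
  have ha : 0 < b * Real.log T := mul_pos hb hL
  have e : (fun t : ℝ => AF Z m T b t ^ 2) = fun t => ∑ s ∈ Z, ∑ s' ∈ Z, m s * m s' *
      (fj (b * Real.log T * (s.im - t)) * fj (b * Real.log T * (s'.im - t))) := by
    funext t
    unfold AF
    rw [sq, Finset.sum_mul_sum]
    refine Finset.sum_congr rfl fun s _ => Finset.sum_congr rfl fun s' _ => ?_
    ring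
  rw [e, integral_finsetSum]
  · unfold PW
    rw [Finset.mul_sum]
    refine Finset.sum_congr rfl fun s _ => ?_
    rw [integral_finsetSum, Finset.mul_sum]
    · refine Finset.sum_congr rfl fun s' _ => ?_
      rw [integral_const_mul, (pair_scaled hFJ hPL _ ha _ _).2]
      ring
    · intro s' _
      exact ((pair_scaled hFJ hPL _ ha _ _).1).const_mul _
  · intro s _
    refine integrable_finsetSum _ fun s' _ => ?_
    exact ((pair_scaled hFJ hPL _ ha _ _).1).const_mul _

end Pool.Agent.H686.OS.PAR
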