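import Pool.Agent.H606.OS.Stm

open MeasureTheory Filter Topology Finset
open Pool.Agent.H606.OS

namespace Pool.Agent.H686.OS.PBW

/-- `wn` as a sum of indicators in the variable `t` -/
theorem wn_eq {ι : Type} (Z : Finset ι) (w p : ι → ℝ) (L t : ℝ) :
    wn Z w p L t = ∑ s ∈ Z, w s * (Set.Ico (p s - 1 / L) (p s)).indicator (fun _ => (1 : ℝ)) t := by
  unfold wn
  refine Finset.sum_congr rfl fun s _ => ?_
  congr 1
  by_cases h : t < p s ∧ p s ≤ t + 1 / L
  · rw [Set.indicator_of_mem (show p s ∈ Set.Ioc t (t + 1 / L) from h),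
      Set.indicator_of_mem (show t ∈ Set.Ico (p s - 1 / L) (p s) from ⟨by linarith [h.2], h.1⟩)]
  · rw [Set.indicator_of_notMem (show p s ∉ Set.Ioc t (t + 1 / L) from h),
      Set.indicator_of_notMem (show t ∉ Set.Ico (p s - 1 / L) (p s) from
        fun h' => h ⟨h'.2, by linarith [h'.1]⟩)]

theorem wn_sq_integrable {ι : Type} (Z : Finset ι) (w p : ι → ℝ) (L : ℝ) :
    Integrable (fun t => wn Z w p L t ^ 2) := by
  have h : (fun t => wn Z w p L t ^ 2) = fun t => ∑ s ∈ Z, ∑ s' ∈ Z, (w s * w s') *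
      (Set.Ico (p s - 1 / L) (p s) ∩ Set.Ico (p s' - 1 / L) (p s')).indicator
        (fun _ => (1 : ℝ)) t := by
    funext t
    rw [wn_eq, sq, Finset.sum_mul_sum]
    refine Finset.sum_congr rfl fun s _ => Finset.sum_congr rfl fun s' _ => ?_
    have := Set.inter_indicator_mul (s := Set.Ico (p s - 1 / L) (p s))
      (t := Set.Ico (p s' - 1 / L) (p s')) (fun _ => (1 : ℝ)) (fun _ => (1 : ℝ)) t
    simp only [mul_one] at this
    rw [this]
    ring
  rw [h]
  refine integrable_finsetSum _ fun s _ => integrable_finsetSum _ fun s' _ => ?_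
  refine Integrable.const_mul ?_ _
  refine (integrable_indicator_iff (measurableSet_Ico.inter measurableSet_Ico)).mpr ?_
  refine integrableOn_const ?_ (by simp)
  refine ne_of_lt (lt_of_le_of_lt (measure_mono Set.inter_subset_left) ?_)
  rw [Real.volume_Ico]
  exact ENNReal.ofReal_lt_top

theorem wn_nonneg {ι : Type} (Z : Finset ι) (w p : ι → ℝ) (L t : ℝ) (hw : ∀ s ∈ Z, 0 ≤ w s) :
    0 ≤ wn Z w p L t := by
  unfold wn
  refine Finset.sum_nonneg fun s hs => mul_nonneg (hw s hs) ?_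
  exact Set.indicator_nonneg (fun _ _ => zero_le_one) _

theorem wn_mono {ι : Type} (Z : Finset ι) (w w' p : ι → ℝ) (L t : ℝ)
    (h : ∀ s ∈ Z, w s ≤ w' s) : wn Z w p L t ≤ wn Z w' p L t := by
  unfold wn
  refine Finset.sum_le_sum fun s hs => mul_le_mul_of_nonneg_right (h s hs) ?_
  exact Set.indicator_nonneg (fun _ _ => zero_le_one) _

theorem int_mono {ι : Type} (Z : Finset ι) (w w' p : ι → ℝ) (L : ℝ) (hw : ∀ s ∈ Z, 0 ≤ w s)
    (h : ∀ s ∈ Z, w s ≤ w' s) : ∫ t : ℝ, wn Z w p L t ^ 2 ≤ ∫ t : ℝ, wn Z w' p L t ^ 2 := by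
  refine integral_mono (wn_sq_integrable Z w p L) (wn_sq_integrable Z w' p L) fun t => ?_
  exact pow_le_pow_left₀ (wn_nonneg Z w p L t hw) (wn_mono Z w w' p L t h) 2

theorem one_le_wt (T : ℝ) (s : ℂ) : 1 ≤ wt T s := by
  unfold wt
  have := mul_nonneg (sq_nonneg (Real.log T * (s.re - 1 / 2)))
    (Real.exp_nonneg (Real.log T * |s.re - 1 / 2| / 4))
  linarith

theorem t_PBW (hPB : S_PB) : S_PBW := by
  obtain ⟨C, hC, h⟩ := hPB
  intro C0 hC0
  refine ⟨C * C0, by positivity, fun D b hb hb1 => ?_⟩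
  filter_upwards [D.w2, eventually_gt_atTop (Real.exp 1)] with T hw hT
  have hL : 1 < Real.log T := by
    rw [Real.lt_log_iff_exp_lt (lt_trans (Real.exp_pos 1) hT)]
    exact hT
  have hL0 : 0 < Real.log T := by linarith
  have h1 := h ℂ (zw D.ZG T) D.m Complex.im (Real.log T) (b * Real.log T) (by positivity)
    (by nlinarith) (fun s _ => D.hm s)
  have h2 : ∫ t : ℝ, wn (zw D.ZG T) D.m Complex.im (Real.log T) t ^ 2 ≤ C0 * T := by
    refine le_trans (int_mono _ _ _ _ _ (fun s _ => D.hm s) fun s _ => ?_) hw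
    have := one_le_wt T s
    nlinarith [D.hm s]
  refine h1.trans ?_
  have e : Real.log T ^ 2 / (b * Real.log T) = Real.log T / b := by
    field_simp
  rw [e]
  calc C * (Real.log T / b) * ∫ t : ℝ, wn (zw D.ZG T) D.m Complex.im (Real.log T) t ^ 2
      ≤ C * (Real.log T / b) * (C0 * T) := by
        refine mul_le_mul_of_nonneg_left h2 (by positivity)
    _ = C * C0 / b * (T * Real.log T) := by ring

end Pool.Agent.H686.OS.PBW
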