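import Pool.Agent.H606.OS.Stm

open MeasureTheory Filter Topology Finset
open Pool.Agent.H606.OS

namespace Pool.Agent.H686.OS.W5

/-- `wn` as a sum of indicators in the variable `t` -/
theorem wn_eq {ι : Type} (Z : Finset ι) (w p : ι → ℝ) (L t : ℝ) :
    wn Z w p L t = ∑ s ∈ Z, w s * (Set.Ico (p s - 1 / L) (p s)).indicator (fun _ => (1 : ℝ)) t := by
  unfold wn
  refine Finset.sum_congr rfl fun s _ => ?_
  congr 1
  by_cases h : t < p s ∧ p s ≤ t + 1 / L
  · rw [Set.indicator_of_mem (show p s ∈ Set.Ioc t (t + 1 / L) from h),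
      Set.indicator_of_mem (show t ∈ Set.Ico (p s - 1 / L) (p s) from ⟨by linarith [h.2], h.1⟩)]
  · rw [Set.indicator_of_notMem (show p s ∉ Set.Ioc t (t + 1 / L) from h),
      Set.indicator_of_notMem (show t ∉ Set.Ico (p s - 1 / L) (p s) from
        fun h' => h ⟨h'.2, by linarith [h'.1]⟩)]

theorem wn_sq_integrable {ι : Type} (Z : Finset ι) (w p : ι → ℝ) (L : ℝ) :
    Integrable (fun t => wn Z w p L t ^ 2) := by
  have h : (fun t => wn Z w p L t ^ 2) = fun t => ∑ s ∈ Z, ∑ s' ∈ Z, (w s * w s') *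
      (Set.Ico (p s - 1 / L) (p s) ∩ Set.Ico (p s' - 1 / L) (p s')).indicator
        (fun _ => (1 : ℝ)) t := by
    funext t
    rw [wn_eq, sq, Finset.sum_mul_sum]
    refine Finset.sum_congr rfl fun s _ => Finset.sum_congr rfl fun s' _ => ?_
    have := Set.inter_indicator_mul (s := Set.Ico (p s - 1 / L) (p s))
      (t := Set.Ico (p s' - 1 / L) (p s')) (fun _ => (1 : ℝ)) (fun _ => (1 : ℝ)) t
    simp only [mul_one] at this
    rw [this]
    ring
  rw [h]
  refine integrable_finsetSum _ fun s _ => integrable_finsetSum _ fun s' _ => ?_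
  refine Integrable.const_mul ?_ _
  refine (integrable_indicator_iff (measurableSet_Ico.inter measurableSet_Ico)).mpr ?_
  refine integrableOn_const ?_ (by simp)
  refine ne_of_lt (lt_of_le_of_lt (measure_mono Set.inter_subset_left) ?_)
  rw [Real.volume_Ico]
  exact ENNReal.ofReal_lt_top

theorem wn_nonneg {ι : Type} (Z : Finset ι) (w p : ι → ℝ) (L t : ℝ) (hw : ∀ s ∈ Z, 0 ≤ w s) :
    0 ≤ wn Z w p L t := by
  unfold wn
  refine Finset.sum_nonneg fun s hs => mul_nonneg (hw s hs) ?_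
  exact Set.indicator_nonneg (fun _ _ => zero_le_one) _

theorem wn_mono {ι : Type} (Z : Finset ι) (w w' p : ι → ℝ) (L t : ℝ)
    (h : ∀ s ∈ Z, w s ≤ w' s) : wn Z w p L t ≤ wn Z w' p L t := by
  unfold wn
  refine Finset.sum_le_sum fun s hs => mul_le_mul_of_nonneg_right (h s hs) ?_
  exact Set.indicator_nonneg (fun _ _ => zero_le_one) _

theorem int_mono {ι : Type} (Z : Finset ι) (w w' p : ι → ℝ) (L : ℝ) (hw : ∀ s ∈ Z, 0 ≤ w s)
    (h : ∀ s ∈ Z, w s ≤ w' s) : ∫ t : ℝ, wn Z w p L t ^ 2 ≤ ∫ t : ℝ, wn Z w' p L t ^ 2 := by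
  refine integral_mono (wn_sq_integrable Z w p L) (wn_sq_integrable Z w' p L) fun t => ?_
  exact pow_le_pow_left₀ (wn_nonneg Z w p L t hw) (wn_mono Z w w' p L t h) 2

theorem sq_le_wt (T : ℝ) (s : ℂ) (hT : 0 ≤ Real.log T) :
    (Real.log T * (s.re - 1 / 2)) ^ 2 ≤ wt T s := by
  unfold wt
  have h1 : 1 ≤ Real.exp (Real.log T * |s.re - 1 / 2| / 4) := by
    apply Real.one_le_exp
    positivity
  nlinarith [sq_nonneg (Real.log T * (s.re - 1 / 2))]

theorem t_W5 (hLP : S_LP) (hCWG : S_CWG) : S_W5 := by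
  obtain ⟨C1, hC1, h1⟩ := hLP
  obtain ⟨C2, hC2, h2⟩ := hCWG
  intro C0 hC0
  refine ⟨C1 * C2 * C0, by positivity, fun D n b0 hb hb1 => ?_⟩
  filter_upwards [D.w2, eventually_gt_atTop (Real.exp 1)] with T hw hT
  have hL : 1 < Real.log T := by
    rw [Real.lt_log_iff_exp_lt (lt_trans (Real.exp_pos 1) hT)]
    exact hT
  have hL0 : 0 < Real.log T := by linarith
  set c : ℂ → ℝ := fun s => D.m s * (Real.log T * (s.re - 1 / 2)) ^ 2 with hc
  have hc0 : ∀ s ∈ zw D.ZG T, 0 ≤ c s := fun s _ => mul_nonneg (D.hm s) (sq_nonneg _)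
  have k1 := h1 ℂ (zw D.ZG T) c Complex.im (Real.log T) b0 n hL0 hb (by linarith)
  have k2 := h2 ℂ (zw D.ZG T) c Complex.im (Real.log T) hL0 hc0
  have k3 : ∫ t : ℝ, wn (zw D.ZG T) c Complex.im (Real.log T) t ^ 2 ≤ C0 * T := by
    refine le_trans (int_mono _ _ _ _ _ hc0 fun s _ => ?_) hw
    exact mul_le_mul_of_nonneg_left (sq_le_wt T s hL0.le) (D.hm s)
  have e : ∀ i ∈ range n, (∫ t : ℝ, QF (zw D.ZG T) D.m T (b0 / 2 ^ i) t ^ 2) / (b0 / 2 ^ i) ^ 2 =
      (∫ t : ℝ, (∑ s ∈ zw D.ZG T, c s * ((b0 / 2 ^ i) ^ 2 / 2 *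
        pp (b0 / 2 ^ i * Real.log T * (s.im - t)))) ^ 2) / (b0 / 2 ^ i) ^ 2 := by
    intro i _
    congr 1
    refine integral_congr_ae (Filter.Eventually.of_forall fun t => ?_)
    simp only []
    congr 1
    unfold QF
    refine Finset.sum_congr rfl fun s _ => ?_
    rw [hc]
    ring
  rw [Finset.sum_congr rfl e]
  refine k1.trans ?_
  calc C1 / Real.log T * ∑ s ∈ zw D.ZG T, ∑ s' ∈ zw D.ZG T, c s * c s' *
        Real.exp (-(Real.log T * (s.im - s'.im)) ^ 2 / 4)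
      ≤ C1 / Real.log T * (C2 * Real.log T *
        ∫ t : ℝ, wn (zw D.ZG T) c Complex.im (Real.log T) t ^ 2) :=
        mul_le_mul_of_nonneg_left k2 (by positivity)
    _ ≤ C1 / Real.log T * (C2 * Real.log T * (C0 * T)) := by
        refine mul_le_mul_of_nonneg_left ?_ (by positivity)
        exact mul_le_mul_of_nonneg_left k3 (by positivity)
    _ = C1 * C2 * C0 * T := by
        field_simp

end Pool.Agent.H686.OS.W5
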